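import Pool.Agent.Helper30.Full.GoalsW

/-! Packet W0: change of coordinates -/

set_option autoImplicit false
set_option linter.all false

namespace Pool.Agent.Helper31.Full

open Pool.Agent.Helper30.Full Polynomial

universe u

noncomputable section

/-- the left ideal of all endomorphisms `f` with `f (p^i X) ⊆ p^(i+1) X` -/
def JI (p : ℕ) (X : Type u) [AddCommGroup X] (i : ℕ) : Ideal (AddMonoid.End X) where
  carrier := {f | ∀ x : X, ∃ y : X, f (p ^ i • x) = p ^ (i + 1) • y}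
  zero_mem' := fun x => ⟨0, by simp⟩
  add_mem' := fun {f g} hf hg x => by
    obtain ⟨y, hy⟩ := hf x
    obtain ⟨z, hz⟩ := hg x
    exact ⟨y + z, by show f (p ^ i • x) + g (p ^ i • x) = _; rw [hy, hz, smul_add]⟩
  smul_mem' := fun g f hf x => by
    obtain ⟨y, hy⟩ := hf x
    exact ⟨g y, by show g (f (p ^ i • x)) = _; rw [hy, map_nsmul]⟩

lemma mem_JI {p : ℕ} {X : Type u} [AddCommGroup X] {i : ℕ} {f : AddMonoid.End X} :
    f ∈ JI p X i ↔ ∀ x : X, ∃ y : X, f (p ^ i • x) = p ^ (i + 1) • y := Iff.rfl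

lemma JI_mono {p : ℕ} {X : Type u} [AddCommGroup X] {i : ℕ} (j : ℕ) {f : AddMonoid.End X}
    (hf : f ∈ JI p X i) : f ∈ JI p X (i + j) := by
  intro x
  obtain ⟨y, hy⟩ := hf x
  refine ⟨y, ?_⟩
  have e1 : p ^ (i + j) • x = p ^ j • (p ^ i • x) := by
    rw [← mul_smul, pow_add, mul_comm]
  rw [e1, map_nsmul, hy, ← mul_smul, ← pow_add]
  congr 2
  ring

section

variable {p : ℕ} [Fact p.Prime] {d : ℕ} {X : Type u} [AddCommGroup X] [TopologicalSpace X]
  (b : Act p d X)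

lemma small_iff (k : Fin d → ℤ_[p]) : Small b k ↔ ∃ i n : ℕ, b.T k ^ n ∈ JI p X i := Iff.rfl

lemma small_add {h h' : Fin d → ℤ_[p]} (H : Small b h) (H' : Small b h') : Small b (h + h') := by
  rw [small_iff] at *
  obtain ⟨i, n, hn⟩ := H
  obtain ⟨i', n', hn'⟩ := H'
  refine ⟨i + i', n + n', ?_⟩
  rw [T_add]
  refine Ideal.add_pow_mem_of_pow_mem_of_le_of_commute (JI p X (i + i')) (m := n) (n := n')
    (JI_mono i' hn) ?_ (by omega) ?_
  · have hc : Commute (b.σ h) (b.T h') := (T_comm_σ b h' h).symm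
    rw [hc.mul_pow]
    refine Ideal.mul_mem_left _ _ ?_
    rw [add_comm i i']
    exact JI_mono i hn'
  · exact (T_comm_σ b h h).mul_right (T_comm b h h')

lemma small_zero : Small b 0 := ⟨0, 1, fun x => ⟨0, by rw [T_zero]; simp⟩⟩

lemma small_of_p {h : Fin d → ℤ_[p]} (H : Small b (p • h)) : Small b h := by
  rw [small_iff] at *
  obtain ⟨i, n, hn⟩ := H
  obtain ⟨P, hP⟩ := T_ppow b 1 h
  rw [pow_one] at hP
  refine ⟨i, p * n, ?_⟩
  rw [pow_mul]
  have e1 : b.T h ^ p = b.T (p • h) + -(p • (b.T h * aeval (b.T h) P)) := by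
    rw [hP]; abel
  rw [e1]
  refine Ideal.add_pow_mem_of_pow_mem_of_le_of_commute (JI p X i) (m := n) (n := 1)
    hn ?_ (by omega) ?_
  · rw [pow_one]
    refine (JI p X i).neg_mem ?_
    intro x
    refine ⟨(b.T h * aeval (b.T h) P) x, ?_⟩
    show p • ((b.T h * aeval (b.T h) P) (p ^ i • x)) = _
    rw [map_nsmul, ← mul_smul, pow_succ']
  · have e2 : b.T (p • h) = aeval (b.T h) (Polynomial.X ^ p + p • (Polynomial.X * P) : ℤ[X]) := by
      rw [hP]; simp
    have e3 : -(p • (b.T h * aeval (b.T h) P)) = aeval (b.T h) (-(p • (Polynomial.X * P)) : ℤ[X]) := by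
      simp
    rw [e2, e3]
    exact (Commute.all (Polynomial.X ^ p + p • (Polynomial.X * P) : ℤ[X]) (-(p • (Polynomial.X * P)) : ℤ[X])).map (aeval (b.T h))

variable [IsTopologicalAddGroup X] [CompactSpace X] [T2Space X]

lemma small_smul (a : ℤ_[p]) {h : Fin d → ℤ_[p]} (H : Small b h) : Small b (a • h) := by
  have inv : ∀ k, ∀ y ∈ AddMonoidHom.range (b.T h), b.σ k y ∈ AddMonoidHom.range (b.T h) := by
    rintro k _ ⟨x, rfl⟩
    exact ⟨b.σ k x, T_comm_σ_apply b h k x⟩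
  have h1 : h ∈ subm b Set.univ (AddMonoidHom.range (b.T h)) (closed_rangeT b h) inv :=
    fun z _ => ⟨z, rfl⟩
  have h2 : ∀ x : X, ∃ y : X, b.T (a • h) x = b.T h y := by
    intro x
    obtain ⟨y, hy⟩ := (Submodule.smul_mem _ a h1) x trivial
    exact ⟨y, hy.symm⟩
  have h3 : ∀ n : ℕ, ∀ x : X, ∃ y : X, (b.T (a • h) ^ n) x = (b.T h ^ n) y := by
    intro n
    induction n with
    | zero => intro x; exact ⟨x, rfl⟩
    | succ n ih =>
      intro x
      obtain ⟨y, hy⟩ := ih x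
      obtain ⟨z, hz⟩ := h2 y
      refine ⟨z, ?_⟩
      have e1 : (b.T (a • h) ^ (n + 1)) x = b.T (a • h) ((b.T (a • h) ^ n) x) := by
        rw [pow_succ']; rfl
      have e2 : b.T (a • h) ((b.T h ^ n) y) = (b.T h ^ n) (b.T (a • h) y) := by
        have hc : Commute (b.T (a • h)) (b.T h ^ n) := (T_comm b (a • h) h).pow_right n
        exact congrArg (fun f : AddMonoid.End X => f y) hc
      rw [e1, hy, e2, hz, pow_succ]
      rfl
  obtain ⟨i, n, hn⟩ := H
  refine ⟨i, n, fun x => ?_⟩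
  obtain ⟨y, hy⟩ := h3 n x
  obtain ⟨z, hz⟩ := hn y
  refine ⟨z, ?_⟩
  rw [map_nsmul, hy, ← map_nsmul, hz]

/-- the submodule of all small elements -/
def PS : Submodule ℤ_[p] (Fin d → ℤ_[p]) where
  carrier := {h | Small b h}
  zero_mem' := small_zero b
  add_mem' := fun H H' => small_add b H H'
  smul_mem' := fun a h H => small_smul b a H

lemma mem_PS {h : Fin d → ℤ_[p]} : h ∈ PS b ↔ Small b h := Iff.rfl

lemma isolated {a : ℤ_[p]} (ha : a ≠ 0) {h : Fin d → ℤ_[p]} (H : a • h ∈ PS b) : h ∈ PS b := by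
  have h1 : (p : ℤ_[p]) ^ a.valuation • h ∈ PS b := by
    have e1 := PadicInt.unitCoeff_spec ha
    have e2 : (p : ℤ_[p]) ^ a.valuation = ((PadicInt.unitCoeff ha)⁻¹ : ℤ_[p]ˣ) * a := by
      have e3 := congrArg (fun t : ℤ_[p] => (((PadicInt.unitCoeff ha)⁻¹ : ℤ_[p]ˣ) : ℤ_[p]) * t) e1
      rw [e3, ← mul_assoc, ← Units.val_mul, inv_mul_cancel, Units.val_one, one_mul]
    rw [e2, mul_smul]
    exact Submodule.smul_mem _ _ H
  generalize a.valuation = n at h1
  induction n with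
  | zero => simpa using h1
  | succ n ih =>
    apply ih
    rw [pow_succ', mul_smul, Nat.cast_smul_eq_nsmul] at h1
    exact small_of_p b h1

end

/-- an isolated submodule is given by the vanishing of the first `s` coordinates in some basis -/
lemma exists_coord {p : ℕ} [Fact p.Prime] {d : ℕ} (P : Submodule ℤ_[p] (Fin d → ℤ_[p]))
    (hP : ∀ a : ℤ_[p], a ≠ 0 → ∀ h, a • h ∈ P → h ∈ P) :
    ∃ (s : ℕ) (f : (Fin d → ℤ_[p]) ≃ₗ[ℤ_[p]] (Fin d → ℤ_[p])), s ≤ d ∧
      ∀ k, f k ∈ P ↔ ∀ i : Fin d, (i : ℕ) < s → k i = 0 := by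
  classical
  obtain ⟨n, snf⟩ := P.smithNormalForm (Pi.basisFun ℤ_[p] (Fin d))
  have hmem : ∀ i : Fin n, snf.bM (snf.f i) ∈ P := by
    intro i
    refine hP (snf.a i) ?_ _ ?_
    · intro h0
      have h1 := snf.snf i
      rw [h0, zero_smul] at h1
      exact snf.bN.ne_zero i (Subtype.ext h1)
    · rw [← snf.snf i]
      exact (snf.bN i).2
  have hchar : ∀ v, v ∈ P ↔ ∀ j, j ∉ Set.range snf.f → snf.bM.repr v j = 0 := by
    intro v
    constructor
    · intro hv j hj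
      exact snf.repr_eq_zero_of_notMem_range ⟨v, hv⟩ hj
    · intro h
      rw [← snf.bM.sum_repr v]
      refine Submodule.sum_mem _ fun j _ => ?_
      by_cases hj : j ∈ Set.range snf.f
      · obtain ⟨i, rfl⟩ := hj
        exact Submodule.smul_mem _ _ (hmem i)
      · rw [h j hj, zero_smul]
        exact Submodule.zero_mem _
  set s := Fintype.card {x : Fin d // x ∉ Set.range snf.f} with hs
  have hsd : s ≤ d := by
    have := Fintype.card_subtype_le (fun x : Fin d => x ∉ Set.range snf.f)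
    rwa [Fintype.card_fin] at this
  have hcard : Fintype.card {x : Fin d // (x : ℕ) < s} = Fintype.card {x : Fin d // x ∉ Set.range snf.f} := by
    rw [← hs]
    exact Fintype.card_fin_lt_of_le hsd
  let e := Fintype.equivOfCardEq hcard
  let π : Equiv.Perm (Fin d) := e.extendSubtype
  have hπ : ∀ x : Fin d, (x : ℕ) < s ↔ π x ∉ Set.range snf.f := by
    intro x
    constructor
    · intro hx
      exact e.extendSubtype_mem x hx
    · intro hx
      by_contra h
      exact e.extendSubtype_not_mem x h hx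
  refine ⟨s, (snf.bM.reindex π.symm).equivFun.symm, hsd, ?_⟩
  intro k
  rw [hchar]
  have h1 : ∀ j, snf.bM.repr ((snf.bM.reindex π.symm).equivFun.symm k) (π j) = k j := by
    intro j
    have h2 := congrFun ((snf.bM.reindex π.symm).equivFun.apply_symm_apply k) j
    rw [Module.Basis.equivFun_apply, Module.Basis.repr_reindex_apply] at h2
    simpa using h2
  constructor
  · intro h i hi
    rw [← h1 i]
    exact h _ ((hπ i).1 hi)
  · intro h j hj
    have h2 := h1 (π.symm j)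
    rw [Equiv.apply_symm_apply] at h2
    rw [h2]
    refine h _ ((hπ _).2 ?_)
    rwa [Equiv.apply_symm_apply]

section

variable {p : ℕ} [Fact p.Prime] {d : ℕ} {X : Type u} [AddCommGroup X] [TopologicalSpace X]
  [IsTopologicalAddGroup X] (b : Act p d X) (f : (Fin d → ℤ_[p]) ≃ₗ[ℤ_[p]] (Fin d → ℤ_[p]))

lemma pull_T (k : Fin d → ℤ_[p]) : (b.pull f.toLinearMap).T k = b.T (f k) := rfl

lemma pull_Small (k : Fin d → ℤ_[p]) : Small (b.pull f.toLinearMap) k ↔ Small b (f k) := Iff.rfl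

lemma pull_Le0 (u k : Fin d → ℤ_[p]) : Le0 (b.pull f.toLinearMap) u k ↔ Le0 b (f u) (f k) := Iff.rfl

lemma pull_Le1 (u k : Fin d → ℤ_[p]) : Le1 (b.pull f.toLinearMap) u k ↔ Le1 b (f u) (f k) := Iff.rfl

lemma pull_Sm1 (k : Fin d → ℤ_[p]) : Sm1 (b.pull f.toLinearMap) k ↔ Sm1 b (f k) := Iff.rfl

lemma pull_DD (l k : Fin d → ℤ_[p]) (x : X) :
    DD (b.pull f.toLinearMap) l k x ↔ DD b (f l) (f k) x := by
  unfold DD
  have : f (p • k) = p • f k := map_nsmul f p k
  simp only [pull_T, this]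

lemma pull_II (u₀ u₁ l : Fin d → ℤ_[p]) (yT : X) (k : Fin d → ℤ_[p]) :
    II (b.pull f.toLinearMap) u₀ u₁ l yT k ↔ II b (f u₀) (f u₁) (f l) yT (f k) := by
  unfold II
  rw [pull_Le0, pull_Le1, pull_Sm1, pull_DD]

lemma pull_Bf (t : ℕ) (h k : Fin d → ℤ_[p]) :
    Bf (b.pull f.toLinearMap) t h k ↔ Bf b t (f h) (f k) := by
  unfold Bf
  rw [pull_Le1, map_nsmul]

lemma pull_RR (t : ℕ) (u₀ u₁ l : Fin d → ℤ_[p]) (yT yV x : X) (k h : Fin d → ℤ_[p]) :
    RR (b.pull f.toLinearMap) t u₀ u₁ l yT yV x k h ↔ RR b t (f u₀) (f u₁) (f l) yT yV x (f k) (f h) := by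
  unfold RR
  constructor
  · intro H k' h1 h2 h3
    obtain ⟨k', rfl⟩ := f.surjective k'
    obtain ⟨h', g1, g2, g3, g4⟩ := H k' ((pull_II b f _ _ _ _ _).2 h1)
      (fun c => h2 ((pull_Bf b f _ _ _).1 c)) (fun c => h3 ((pull_Bf b f _ _ _).1 c))
    exact ⟨f h', (pull_II b f _ _ _ _ _).1 g1, fun c => g2 ((pull_Bf b f _ _ _).2 c),
      fun c => g3 ((pull_Bf b f _ _ _).2 c), (pull_DD b f _ _ _).1 g4⟩
  · intro H k' h1 h2 h3
    obtain ⟨h', g1, g2, g3, g4⟩ := H (f k') ((pull_II b f _ _ _ _ _).1 h1)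
      (fun c => h2 ((pull_Bf b f _ _ _).2 c)) (fun c => h3 ((pull_Bf b f _ _ _).2 c))
    obtain ⟨h', rfl⟩ := f.surjective h'
    exact ⟨h', (pull_II b f _ _ _ _ _).2 g1, fun c => g2 ((pull_Bf b f _ _ _).1 c),
      fun c => g3 ((pull_Bf b f _ _ _).1 c), (pull_DD b f _ _ _).2 g4⟩

lemma eng_of_pull (H : Eng (b.pull f.toLinearMap)) : Eng b := by
  obtain ⟨t, ht, H⟩ := H
  refine ⟨t, ht, fun w => ?_⟩
  obtain ⟨u₀, u₁, l, yT, yV, ν, h1, h2, h3, h4⟩ := H w
  have hsy : ∀ k, f (f.symm k) = k := f.apply_symm_apply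
  have hII : ∀ k, II b (f u₀) (f u₁) (f l) yT k ↔ II (b.pull f.toLinearMap) u₀ u₁ l yT (f.symm k) := by
    intro k
    rw [pull_II, hsy]
  refine ⟨f u₀, f u₁, f l, yT, yV, fun k => ν (f.symm k), ?_, ?_, ?_, ?_⟩
  · intro k hk
    exact h1 _ ((hII k).1 hk)
  · intro n hn
    obtain ⟨k, hk, hkn⟩ := h2 n hn
    refine ⟨f k, (pull_II b f _ _ _ _ _).1 hk, ?_⟩
    simp only [LinearEquiv.symm_apply_apply]
    exact hkn
  · intro h k hh hk
    have := h3 _ _ ((hII h).1 hh) ((hII k).1 hk)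
    rw [← this, pull_Bf, hsy, hsy]
  · intro c hc
    obtain ⟨x, hx⟩ := h4 c hc
    refine ⟨x, fun k h hk hh hν => ?_⟩
    have := hx _ _ ((hII k).1 hk) ((hII h).1 hh) hν
    rw [← this, pull_RR, hsy, hsy]

end

theorem stmtW0 : StmtW0.{u} := by
  intro p _ d X _ _ _ _ _ H b hb
  obtain ⟨s, f, hsd, hf⟩ := exists_coord (PS b) (fun a ha h hh => isolated b ha hh)
  apply eng_of_pull b f
  apply H _ s
  have hsmall : ∀ k, Small (b.pull f.toLinearMap) k ↔ ∀ i : Fin d, (i : ℕ) < s → k i = 0 :=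
    fun k => hf k
  refine ⟨?_, hsd, ?_, hsmall, ?_, ?_, ?_, ?_⟩
  · obtain ⟨g, hg⟩ := hb.big
    obtain ⟨k, rfl⟩ := f.surjective g
    rcases Nat.eq_zero_or_pos s with h0 | h0
    · exfalso
      apply hg
      apply (hf k).2
      intro i hi
      omega
    · exact h0
  · intro k hk
    have h1 := hb.faith (f k) hk
    exact (map_eq_zero_iff f f.injective).1 h1
  · intro u hu
    obtain ⟨m, hm⟩ := hb.dom (f u) hu
    refine ⟨m, fun k x => ?_⟩
    obtain ⟨y, hy⟩ := hm (f k) x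
    refine ⟨y, ?_⟩
    rw [pull_T, pull_T, map_nsmul]
    exact hy
  · intro h hh x
    exact hb.sm2 (f h) hh x
  · intro h hh g
    exact hb.quo (f h) (fun h0 => hh ((map_eq_zero_iff f f.injective).1 h0)) (f g)
  · intro g i
    exact hb.bdd (f g) i

end

end Pool.Agent.Helper31.Full
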